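import Pool.Agent.Helper49.SO.Defs
import Pool.Agent.Helper64.SO.Digam

/-!
# SO3: the main term

`x MT x t = x Gd t + 2 Re (e^(z₁x) - 1)/z₁² + 2 Re (e^(z₂x) - 1)/z₂² - 2 ∑ Re e^(z_n x)/z_n² + 2 ∑ Re 1/z_n²`,
`z_n = -(2n+1/2) + it`; `e^(-bx)/(b²+t²) ≤ b^(-5/4) x^(-3/4) t^(-3/2)`.
-/

set_option autoImplicit false
open MeasureTheory Set Filter Topology
open Pool.Agent.Helper57.Zeta Pool.Agent.Helper57.LH Pool.Agent.Helper57.ED Pool.Agent.Helper54.LG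
open Pool.Agent.Helper93.UG (zc)
open Pool.Agent.Helper24.WS (Pk Edge EdgeM)

namespace Pool.Agent.Helper49.SO

private noncomputable def bn57 (n : ℕ) : ℝ := 2 * (n:ℝ) + 1 / 2

private lemma bn_pos57 (n : ℕ) : 0 < bn57 n := by
  unfold bn57
  positivity

private lemma z_ne57 {a t : ℝ} (ht : 1 ≤ t) : (a : ℂ) + t * Complex.I ≠ 0 := by
  intro h
  have := congrArg Complex.im h
  simp at this
  linarith

private lemma normSq57 (a t : ℝ) : Complex.normSq ((a : ℂ) + t * Complex.I) = a ^ 2 + t ^ 2 := by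
  rw [Complex.normSq_add_mul_I]

private lemma re_inv57 (a t : ℝ) : (1 / ((a : ℂ) + t * Complex.I)).re = a / (a ^ 2 + t ^ 2) := by
  rw [one_div, Complex.inv_re, normSq57]
  simp

private lemma re_inv2_57 (a t : ℝ) : (1 / ((a : ℂ) + t * Complex.I) ^ 2).re = (a ^ 2 - t ^ 2) / (a ^ 2 + t ^ 2) ^ 2 := by
  rw [one_div, Complex.inv_re, map_pow, normSq57]
  congr 1
  simp [pow_two]

private lemma xJJ57 {x a t : ℝ} (hx : 0 < x) (ht : 1 ≤ t) :
    x * (JJ x ((a : ℂ) + t * Complex.I)).re = -(x * (a / (a ^ 2 + t ^ 2))) +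
      (Complex.exp (((a : ℂ) + t * Complex.I) * x) / ((a : ℂ) + t * Complex.I) ^ 2).re -
        (a ^ 2 - t ^ 2) / (a ^ 2 + t ^ 2) ^ 2 := by
  have hz := z_ne57 (a := a) ht
  rw [← re_inv57, ← re_inv2_57, ← Complex.re_ofReal_mul, ← Complex.re_ofReal_mul, ← Complex.neg_re, ← Complex.add_re,
    ← Complex.sub_re, JJ_eq hx hz]
  have hx' : (x : ℂ) ≠ 0 := by exact_mod_cast hx.ne'
  congr 1
  field_simp
  ring

private lemma norm_ez57 {x a t : ℝ} : ‖Complex.exp (((a : ℂ) + t * Complex.I) * x) / ((a : ℂ) + t * Complex.I) ^ 2‖ =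
    Real.exp (a * x) / (a ^ 2 + t ^ 2) := by
  rw [norm_div, norm_pow, Complex.norm_exp, ← Complex.normSq_eq_norm_sq, normSq57]
  congr 2
  simp

private lemma re_ez57 {x a t : ℝ} : |(Complex.exp (((a : ℂ) + t * Complex.I) * x) / ((a : ℂ) + t * Complex.I) ^ 2).re| ≤
    Real.exp (a * x) / (a ^ 2 + t ^ 2) := by
  rw [← norm_ez57]
  exact Complex.abs_re_le_norm _

private noncomputable def en57 (t : ℝ) (n : ℕ) (x : ℝ) : ℝ :=
  (Complex.exp (((-(bn57 n) : ℝ) : ℂ) * x + t * Complex.I * x) / (((-(bn57 n) : ℝ) : ℂ) + t * Complex.I) ^ 2).re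

private lemma en_abs57 (t : ℝ) (n : ℕ) (x : ℝ) : |en57 t n x| ≤ Real.exp (-(bn57 n * x)) / (bn57 n ^ 2 + t ^ 2) := by
  unfold en57
  have h := re_ez57 (x := x) (a := -(bn57 n)) (t := t)
  rw [add_mul] at h
  refine h.trans (le_of_eq ?_)
  rw [neg_sq, neg_mul]

private lemma sum57 : Summable fun n : ℕ => 1 / bn57 n ^ 2 := by
  have h : Summable fun n : ℕ => 4 * (1 / ((n:ℝ) + 1) ^ 2) := by
    apply Summable.mul_left
    have := (summable_nat_add_iff 1).mpr (Real.summable_one_div_nat_pow.mpr (by norm_num : 1 < 2))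
    simpa using this
  refine Summable.of_nonneg_of_le (fun n => by have := bn_pos57 n; positivity) (fun n => ?_) h
  have hb := bn_pos57 n
  have hn : (0:ℝ) ≤ n := Nat.cast_nonneg n
  rw [mul_one_div, div_le_div_iff₀ (by positivity) (by positivity)]
  unfold bn57
  nlinarith

private lemma bound57 {t : ℝ} (n : ℕ) : 1 / (bn57 n ^ 2 + t ^ 2) ≤ 1 / bn57 n ^ 2 := by
  have hb := bn_pos57 n
  exact one_div_le_one_div_of_le (by positivity) (by nlinarith [sq_nonneg t])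

private lemma en_le57 {t x : ℝ} (hx : 0 ≤ x) (n : ℕ) : |en57 t n x| ≤ 1 / bn57 n ^ 2 := by
  refine (en_abs57 t n x).trans (le_trans ?_ (bound57 (t := t) n))
  have hb := bn_pos57 n
  apply div_le_div_of_nonneg_right _ (by positivity)
  exact Real.exp_le_one_iff.mpr (by nlinarith [mul_nonneg hb.le hx])

private lemma en_summable57 {t x : ℝ} (hx : 0 ≤ x) : Summable fun n => en57 t n x :=
  Summable.of_norm_bounded sum57 (fun n => by rw [Real.norm_eq_abs]; exact en_le57 hx n)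

private lemma sq_summable57 (t : ℝ) : Summable fun n : ℕ => (bn57 n ^ 2 - t ^ 2) / (bn57 n ^ 2 + t ^ 2) ^ 2 := by
  refine Summable.of_norm_bounded sum57 (fun n => ?_)
  refine le_trans ?_ (bound57 (t := t) n)
  have hb := bn_pos57 n
  rw [Real.norm_eq_abs, abs_div, abs_of_pos (by positivity : 0 < (bn57 n ^ 2 + t ^ 2) ^ 2),
    div_le_div_iff₀ (by positivity) (by positivity), one_mul, pow_two (bn57 n ^ 2 + t ^ 2)]
  apply mul_le_mul_of_nonneg_right _ (by positivity)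
  rw [abs_le]
  constructor <;> nlinarith [sq_nonneg t, sq_nonneg (bn57 n)]

private noncomputable def Sn57 (t x : ℝ) : ℝ := ∑' n : ℕ, en57 t n x

private lemma Sn_cont57 (t X : ℝ) : ContinuousOn (Sn57 t) (Icc 0 X) := by
  unfold Sn57
  apply continuousOn_tsum (u := fun n : ℕ => 1 / bn57 n ^ 2)
  · intro n
    unfold en57
    apply Continuous.continuousOn
    apply Complex.continuous_re.comp
    apply Continuous.div_const
    fun_prop
  · exact sum57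
  · intro n x hx
    rw [Real.norm_eq_abs]
    exact en_le57 hx.1 n

private lemma sum2_57 : Summable fun n : ℕ => bn57 n ^ (-(5 / 4) : ℝ) := by
  have h : Summable fun n : ℕ => 2 ^ (5 / 4 : ℝ) * ((n:ℝ) + 1) ^ (-(5 / 4) : ℝ) := by
    apply Summable.mul_left
    have := (summable_nat_add_iff 1).mpr (Real.summable_nat_rpow.mpr (by norm_num : (-(5 / 4) : ℝ) < -1))
    simpa using this
  refine Summable.of_nonneg_of_le (fun n => by have := bn_pos57 n; positivity) (fun n => ?_) h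
  have hb := bn_pos57 n
  have hn : (0:ℝ) ≤ n := Nat.cast_nonneg n
  have e : 2 ^ (5 / 4 : ℝ) * ((n:ℝ) + 1) ^ (-(5 / 4) : ℝ) = (((n:ℝ) + 1) / 2) ^ (-(5 / 4) : ℝ) := by
    rw [Real.div_rpow (by positivity) (by norm_num), Real.rpow_neg (by norm_num : (0:ℝ) ≤ 2)]
    field_simp
  rw [e]
  apply Real.rpow_le_rpow_of_nonpos (by positivity) _ (by norm_num)
  unfold bn57
  linarith

private lemma en_dec57 {t x : ℝ} (ht : 1 ≤ t) (hx : 0 < x) (n : ℕ) :
    |en57 t n x| ≤ bn57 n ^ (-(5 / 4) : ℝ) * (x ^ (-(3 / 4) : ℝ) * t ^ (-(3 / 2) : ℝ)) := by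
  have hb := bn_pos57 n
  have ht0 : 0 < t := by linarith
  refine (en_abs57 t n x).trans ?_
  set b := bn57 n
  have h1 : Real.exp (-(b * x)) ≤ (b * x) ^ (-(3 / 4) : ℝ) := by
    have hy : 0 < b * x := by positivity
    rw [Real.exp_neg, Real.rpow_neg hy.le]
    apply inv_anti₀ (by positivity)
    rcases le_total 1 (b * x) with h | h
    · calc (b * x) ^ (3 / 4 : ℝ) ≤ (b * x) ^ (1:ℝ) := Real.rpow_le_rpow_of_exponent_le h (by norm_num)
        _ = b * x := Real.rpow_one _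
        _ ≤ Real.exp (b * x) := by linarith [Real.add_one_le_exp (b * x)]
    · calc (b * x) ^ (3 / 4 : ℝ) ≤ 1 := Real.rpow_le_one hy.le h (by norm_num)
        _ ≤ Real.exp (b * x) := Real.one_le_exp hy.le
  have h2 : 1 / (b ^ 2 + t ^ 2) ≤ b ^ (-(1 / 2) : ℝ) * t ^ (-(3 / 2) : ℝ) := by
    have h3 : b ^ (1 / 2 : ℝ) * t ^ (3 / 2 : ℝ) ≤ b ^ 2 + t ^ 2 := by
      have h4 := Real.geom_mean_le_arith_mean2_weighted (w₁ := 1 / 4) (w₂ := 3 / 4) (p₁ := b ^ 2) (p₂ := t ^ 2)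
        (by norm_num) (by norm_num) (by positivity) (by positivity) (by norm_num)
      have e1 : (b ^ 2) ^ (1 / 4 : ℝ) = b ^ (1 / 2 : ℝ) := by
        rw [← Real.rpow_natCast b 2, ← Real.rpow_mul hb.le]
        congr 1; norm_num
      have e2 : (t ^ 2) ^ (3 / 4 : ℝ) = t ^ (3 / 2 : ℝ) := by
        rw [← Real.rpow_natCast t 2, ← Real.rpow_mul ht0.le]
        congr 1; norm_num
      rw [e1, e2] at h4
      nlinarith [sq_nonneg b, sq_nonneg t]
    rw [Real.rpow_neg hb.le, Real.rpow_neg ht0.le, ← mul_inv, ← one_div]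
    exact one_div_le_one_div_of_le (by positivity) h3
  calc Real.exp (-(b * x)) / (b ^ 2 + t ^ 2) = Real.exp (-(b * x)) * (1 / (b ^ 2 + t ^ 2)) := by ring
    _ ≤ (b * x) ^ (-(3 / 4) : ℝ) * (b ^ (-(1 / 2) : ℝ) * t ^ (-(3 / 2) : ℝ)) := by gcongr
    _ = (b ^ (-(3 / 4) : ℝ) * b ^ (-(1 / 2) : ℝ)) * (x ^ (-(3 / 4) : ℝ) * t ^ (-(3 / 2) : ℝ)) := by
        rw [Real.mul_rpow hb.le hx.le]; ring
    _ = _ := by
        rw [← Real.rpow_add hb]
        congr 2; norm_num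

private noncomputable def K57 : ℝ := ∑' n : ℕ, bn57 n ^ (-(5 / 4) : ℝ)

private lemma K_nonneg57 : 0 ≤ K57 := tsum_nonneg fun n => by have := bn_pos57 n; positivity

private lemma Sn_le57 {t x : ℝ} (ht : 1 ≤ t) (hx : 0 < x) :
    |Sn57 t x| ≤ K57 * (x ^ (-(3 / 4) : ℝ) * t ^ (-(3 / 2) : ℝ)) := by
  have h := tsum_of_norm_bounded ((sum2_57.mul_right (x ^ (-(3 / 4) : ℝ) * t ^ (-(3 / 2) : ℝ))).hasSum) (fun n => by
    rw [Real.norm_eq_abs]; exact en_dec57 ht hx n)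
  rw [Real.norm_eq_abs, tsum_mul_right] at h
  exact h

/-- the main term through `Gd` -/
private lemma MT_eq57 (Gd_summable : ∀ t : ℝ,
      Summable fun n : ℕ => (1 / ((n:ℝ) + 1) - 2 * ((2 * n + 1 / 2) / ((2 * n + 1 / 2) ^ 2 + t ^ 2))))
    {x t : ℝ} (hx : 0 < x) (ht : 1 ≤ t) : x * MT x t =
    x * Gd t + 2 * ((Complex.exp (((-(1 / 2) : ℝ) : ℂ) * x + t * Complex.I * x) / (((-(1 / 2) : ℝ) : ℂ) + t * Complex.I) ^ 2).re -
      (1 / 4 - t ^ 2) / (1 / 4 + t ^ 2) ^ 2) +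
      2 * ((Complex.exp (((1 / 2 : ℝ) : ℂ) * x + t * Complex.I * x) / (((1 / 2 : ℝ) : ℂ) + t * Complex.I) ^ 2).re -
      (1 / 4 - t ^ 2) / (1 / 4 + t ^ 2) ^ 2) - 2 * Sn57 t x +
      2 * ∑' n : ℕ, ((2 * n + 1 / 2) ^ 2 - t ^ 2) / ((2 * n + 1 / 2) ^ 2 + t ^ 2) ^ 2 := by
  have h1 := xJJ57 (a := 3 / 2 - 2) hx ht
  have h2 := xJJ57 (a := 3 / 2 - 1) hx ht
  have ea1 : (3 / 2 - 2 : ℝ) = -(1 / 2) := by norm_num
  have ea2 : (3 / 2 - 1 : ℝ) = 1 / 2 := by norm_num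
  rw [ea1, add_mul] at h1
  rw [ea2, add_mul] at h2
  have h3 : x * ∑' n : ℕ, (1 / ((n:ℝ) + 1) - 2 * (JJ x (((3 / 2 - 2 * ((n:ℝ) + 1) : ℝ) : ℂ) + t * Complex.I)).re) =
      x * ∑' n : ℕ, (1 / ((n:ℝ) + 1) - 2 * ((2 * n + 1 / 2) / ((2 * n + 1 / 2) ^ 2 + t ^ 2))) - 2 * Sn57 t x +
      2 * ∑' n : ℕ, ((2 * n + 1 / 2) ^ 2 - t ^ 2) / ((2 * n + 1 / 2) ^ 2 + t ^ 2) ^ 2 := by
    have q1 := (Gd_summable t).mul_left x
    have q2 := (en_summable57 (t := t) hx.le).mul_left 2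
    have q3 := (sq_summable57 t).mul_left 2
    unfold Sn57
    rw [← tsum_mul_left, ← tsum_mul_left, ← tsum_mul_left, ← q1.tsum_sub q2]
    have q3' : Summable fun n : ℕ => 2 * (((2 * (n:ℝ) + 1 / 2) ^ 2 - t ^ 2) / ((2 * (n:ℝ) + 1 / 2) ^ 2 + t ^ 2) ^ 2) := q3
    rw [← tsum_mul_left, ← (q1.sub q2).tsum_add q3']
    refine tsum_congr fun n => ?_
    have e : (3 / 2 - 2 * ((n:ℝ) + 1) : ℝ) = -(bn57 n) := by unfold bn57; ring
    have h := xJJ57 (a := -(bn57 n)) hx ht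
    rw [add_mul, neg_sq] at h
    rw [e]
    have e2 : bn57 n = 2 * (n:ℝ) + 1 / 2 := rfl
    have e3 : en57 t n x = (Complex.exp (((-(bn57 n) : ℝ) : ℂ) * x + t * Complex.I * x) / (((-(bn57 n) : ℝ) : ℂ) + t * Complex.I) ^ 2).re := rfl
    rw [← e3] at h
    rw [← e2]
    have h' : x * (1 / ((n:ℝ) + 1) - 2 * (JJ x (((-(bn57 n) : ℝ) : ℂ) + t * Complex.I)).re) =
      x * (1 / ((n:ℝ) + 1)) - 2 * (x * (JJ x (((-(bn57 n) : ℝ) : ℂ) + t * Complex.I)).re) := by ring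
    rw [h', h]
    ring
  unfold MT Gd
  rw [ea1, ea2]
  have e4 : ∀ A B D S : ℝ, x * (2 * A + 2 * B - D + S) = 2 * (x * A) + 2 * (x * B) - x * D + x * S := by
    intro A B D S; ring
  rw [e4, h1, h2, h3]
  ring

private lemma main57 (Gd_summable : ∀ t : ℝ,
      Summable fun n : ℕ => (1 / ((n:ℝ) + 1) - 2 * ((2 * n + 1 / 2) / ((2 * n + 1 / 2) ^ 2 + t ^ 2))))
    {Q : ℝ} {X t : ℝ} (hX : 1 / 2 ≤ X) (ht : 1 ≤ t)
    (hQ : |∑' n : ℕ, ((2 * n + 1 / 2) ^ 2 - t ^ 2) / ((2 * n + 1 / 2) ^ 2 + t ^ 2) ^ 2| ≤ Q * t ^ (-(3 / 2) : ℝ)) (hQ0 : 0 ≤ Q) :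
    |X * MM X t - Gd t| ≤ (64 * K57 + 8 * Q) * t ^ (-(3 / 2) : ℝ) + 64 * (Real.exp (X / 2) / t ^ 2) := by
  have hX0 : 0 < X := by linarith
  have ht0 : 0 < t := by linarith
  set SQ := ∑' n : ℕ, ((2 * n + 1 / 2) ^ 2 - t ^ 2) / ((2 * n + 1 / 2) ^ 2 + t ^ 2) ^ 2 with hSQ
  set r : ℝ → ℝ := fun x =>
    2 * ((Complex.exp (((-(1 / 2) : ℝ) : ℂ) * x + t * Complex.I * x) / (((-(1 / 2) : ℝ) : ℂ) + t * Complex.I) ^ 2).re -
      (1 / 4 - t ^ 2) / (1 / 4 + t ^ 2) ^ 2) +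
      2 * ((Complex.exp (((1 / 2 : ℝ) : ℂ) * x + t * Complex.I * x) / (((1 / 2 : ℝ) : ℂ) + t * Complex.I) ^ 2).re -
      (1 / 4 - t ^ 2) / (1 / 4 + t ^ 2) ^ 2) - 2 * Sn57 t x + 2 * SQ with hr
  have hrc : ContinuousOn r (Icc 0 X) := by
    have c1 : Continuous fun x : ℝ =>
        2 * ((Complex.exp (((-(1 / 2) : ℝ) : ℂ) * x + t * Complex.I * x) / (((-(1 / 2) : ℝ) : ℂ) + t * Complex.I) ^ 2).re -
          (1 / 4 - t ^ 2) / (1 / 4 + t ^ 2) ^ 2) := by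
      apply Continuous.mul continuous_const
      apply Continuous.sub _ continuous_const
      apply Complex.continuous_re.comp
      apply Continuous.div_const
      fun_prop
    have c2 : Continuous fun x : ℝ =>
        2 * ((Complex.exp (((1 / 2 : ℝ) : ℂ) * x + t * Complex.I * x) / (((1 / 2 : ℝ) : ℂ) + t * Complex.I) ^ 2).re -
          (1 / 4 - t ^ 2) / (1 / 4 + t ^ 2) ^ 2) := by
      apply Continuous.mul continuous_const
      apply Continuous.sub _ continuous_const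
      apply Complex.continuous_re.comp
      apply Continuous.div_const
      fun_prop
    exact ((c1.continuousOn.add c2.continuousOn).sub (continuousOn_const.mul (Sn_cont57 t X))).add continuousOn_const
  have hri : IntervalIntegrable r volume 0 X := by
    apply ContinuousOn.intervalIntegrable
    rwa [uIcc_of_le hX0.le]
  have hxi : IntervalIntegrable (fun x : ℝ => x * Gd t) volume 0 X := by
    apply Continuous.intervalIntegrable
    fun_prop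
  have hint : ∫ x in (0:ℝ)..X, x * MT x t = X ^ 2 / 2 * Gd t + ∫ x in (0:ℝ)..X, r x := by
    have e1 : ∫ x in (0:ℝ)..X, x * MT x t = ∫ x in (0:ℝ)..X, (x * Gd t + r x) := by
      rw [intervalIntegral.integral_of_le hX0.le, intervalIntegral.integral_of_le hX0.le]
      refine setIntegral_congr_fun measurableSet_Ioc fun x hx => ?_
      show x * MT x t = x * Gd t + r x
      rw [MT_eq57 Gd_summable hx.1 ht, hr]
      simp only
      ring
    rw [e1, intervalIntegral.integral_add hxi hri, intervalIntegral.integral_mul_const, integral_id]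
    ring
  -- the bound
  set E : ℝ := Real.exp (X / 2) / t ^ 2 with hE
  have hE0 : 0 ≤ E := by positivity
  have hb : ∀ x ∈ Ioc (0:ℝ) X, |r x| ≤ 8 * E + 2 * (K57 * (x ^ (-(3 / 4) : ℝ) * t ^ (-(3 / 2) : ℝ))) + 2 * (Q * t ^ (-(3 / 2) : ℝ)) := by
    intro x hx
    have g0 : |(1 / 4 - t ^ 2) / (1 / 4 + t ^ 2) ^ 2| ≤ E := by
      rw [abs_div, abs_of_pos (by positivity : 0 < (1 / 4 + t ^ 2) ^ 2), hE]
      have a1 : |1 / 4 - t ^ 2| ≤ t ^ 2 := by
        rw [abs_le]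
        constructor <;> nlinarith
      have a2 : 1 ≤ Real.exp (X / 2) := Real.one_le_exp (by positivity)
      calc |1 / 4 - t ^ 2| / (1 / 4 + t ^ 2) ^ 2 ≤ t ^ 2 / (t ^ 2) ^ 2 := by
            gcongr
            linarith
        _ = 1 / t ^ 2 := by field_simp
        _ ≤ Real.exp (X / 2) / t ^ 2 := by gcongr
    have g1 : |(Complex.exp (((-(1 / 2) : ℝ) : ℂ) * x + t * Complex.I * x) / (((-(1 / 2) : ℝ) : ℂ) + t * Complex.I) ^ 2).re| ≤ E := by
      have h := re_ez57 (x := x) (a := -(1 / 2)) (t := t)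
      rw [add_mul] at h
      refine h.trans ?_
      rw [hE]
      have a1 : Real.exp (-(1 / 2) * x) ≤ Real.exp (X / 2) := Real.exp_le_exp.mpr (by linarith [hx.1])
      gcongr
      nlinarith
    have g2 : |(Complex.exp (((1 / 2 : ℝ) : ℂ) * x + t * Complex.I * x) / (((1 / 2 : ℝ) : ℂ) + t * Complex.I) ^ 2).re| ≤ E := by
      have h := re_ez57 (x := x) (a := 1 / 2) (t := t)
      rw [add_mul] at h
      refine h.trans ?_
      rw [hE]
      have a1 : Real.exp (1 / 2 * x) ≤ Real.exp (X / 2) := Real.exp_le_exp.mpr (by linarith [hx.2])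
      gcongr
      nlinarith
    have g3 := Sn_le57 ht hx.1
    have k0 := abs_le.mp g0
    have k1 := abs_le.mp g1
    have k2 := abs_le.mp g2
    have k3 := abs_le.mp g3
    have k4 := abs_le.mp hQ
    rw [hr]
    simp only
    rw [abs_le]
    constructor <;> linarith [k0.1, k0.2, k1.1, k1.2, k2.1, k2.2, k3.1, k3.2, k4.1, k4.2]
  have hgi : IntervalIntegrable (fun x : ℝ => 8 * E + 2 * (K57 * (x ^ (-(3 / 4) : ℝ) * t ^ (-(3 / 2) : ℝ))) +
      2 * (Q * t ^ (-(3 / 2) : ℝ))) volume 0 X := by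
    have := intervalIntegral.intervalIntegrable_rpow' (a := 0) (b := X) (r := -(3 / 4)) (by norm_num)
    exact (intervalIntegrable_const.add (((this.mul_const _).const_mul K57).const_mul 2)).add intervalIntegrable_const
  have hbi : |∫ x in (0:ℝ)..X, r x| ≤ 8 * E * X + 2 * (K57 * ((4 * X ^ (1 / 4 : ℝ)) * t ^ (-(3 / 2) : ℝ))) +
      2 * (Q * t ^ (-(3 / 2) : ℝ)) * X := by
    have e1 : |∫ x in (0:ℝ)..X, r x| ≤ ∫ x in (0:ℝ)..X, (8 * E + 2 * (K57 * (x ^ (-(3 / 4) : ℝ) * t ^ (-(3 / 2) : ℝ))) +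
      2 * (Q * t ^ (-(3 / 2) : ℝ))) := by
      have := intervalIntegral.norm_integral_le_of_norm_le hX0.le (f := r) (g := fun x : ℝ => 8 * E + 2 * (K57 * (x ^ (-(3 / 4) : ℝ) * t ^ (-(3 / 2) : ℝ))) +
        2 * (Q * t ^ (-(3 / 2) : ℝ))) (ae_of_all _ fun x hx => by rw [Real.norm_eq_abs]; exact hb x hx) hgi
      rwa [Real.norm_eq_abs] at this
    refine e1.trans (le_of_eq ?_)
    have i1 := intervalIntegral.intervalIntegrable_rpow' (a := 0) (b := X) (r := -(3 / 4)) (by norm_num)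
    rw [intervalIntegral.integral_add (intervalIntegrable_const.add (((i1.mul_const _).const_mul K57).const_mul 2)) intervalIntegrable_const,
      intervalIntegral.integral_add intervalIntegrable_const (((i1.mul_const _).const_mul K57).const_mul 2),
      intervalIntegral.integral_const, intervalIntegral.integral_const, intervalIntegral.integral_const_mul,
      intervalIntegral.integral_const_mul, intervalIntegral.integral_mul_const, integral_rpow (Or.inl (by norm_num)),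
      Real.zero_rpow (by norm_num), show (-(3 / 4) + 1 : ℝ) = 1 / 4 by norm_num]
    simp only [smul_eq_mul, sub_zero]
    ring
  unfold MM
  rw [hint]
  set R := ∫ x in (0:ℝ)..X, r x
  have e3 : X * (2 / X ^ 3 * (X ^ 2 / 2 * Gd t + R)) - Gd t = 2 / X ^ 2 * R := by
    field_simp
    ring
  rw [e3, abs_mul, abs_of_pos (by positivity : 0 < 2 / X ^ 2)]
  have hXi : 1 / X ≤ 2 := by
    rw [div_le_iff₀ hX0]; linarith
  have hX2 : 1 / X ^ 2 ≤ 4 := by
    rw [div_le_iff₀ (by positivity)]; nlinarith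
  have hX3 : X ^ (1 / 4 : ℝ) / X ^ 2 ≤ 4 := by
    rcases le_total 1 X with h | h
    · have : X ^ (1 / 4 : ℝ) ≤ X ^ 2 := by
        calc X ^ (1 / 4 : ℝ) ≤ X ^ (2:ℝ) := Real.rpow_le_rpow_of_exponent_le h (by norm_num)
          _ = X ^ 2 := by norm_num
      rw [div_le_iff₀ (by positivity)]
      nlinarith [sq_nonneg X]
    · have : X ^ (1 / 4 : ℝ) ≤ 1 := Real.rpow_le_one hX0.le h (by norm_num)
      calc X ^ (1 / 4 : ℝ) / X ^ 2 ≤ 1 / X ^ 2 := by gcongr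
        _ ≤ 4 := hX2
  have hK := K_nonneg57
  have ht32 : 0 < t ^ (-(3 / 2) : ℝ) := by positivity
  calc 2 / X ^ 2 * |R| ≤ 2 / X ^ 2 * (8 * E * X + 2 * (K57 * ((4 * X ^ (1 / 4 : ℝ)) * t ^ (-(3 / 2) : ℝ))) +
      2 * (Q * t ^ (-(3 / 2) : ℝ)) * X) := by gcongr
    _ = 16 * (1 / X) * E + 16 * (X ^ (1 / 4 : ℝ) / X ^ 2) * (K57 * t ^ (-(3 / 2) : ℝ)) + 4 * (1 / X) * (Q * t ^ (-(3 / 2) : ℝ)) := by
        field_simp
        ring
    _ ≤ 16 * 2 * E + 16 * 4 * (K57 * t ^ (-(3 / 2) : ℝ)) + 4 * 2 * (Q * t ^ (-(3 / 2) : ℝ)) := by gcongr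
    _ ≤ _ := by nlinarith

/-- SO3: the main term, from SO2 -/
theorem MM_asy_of
    (Gd_summable : ∀ t : ℝ,
      Summable fun n : ℕ => (1 / ((n:ℝ) + 1) - 2 * ((2 * n + 1 / 2) / ((2 * n + 1 / 2) ^ 2 + t ^ 2))))
    (Gd_asy : ∃ C : ℝ, 0 < C ∧ ∀ t : ℝ, 1 ≤ t → |Gd t - Real.log (t / (2 * Real.pi))| ≤ C * t ^ (-(3 / 2) : ℝ))
    (sq_asy : ∃ C : ℝ, 0 < C ∧ ∀ t : ℝ, 1 ≤ t →
      |∑' n : ℕ, ((2 * n + 1 / 2) ^ 2 - t ^ 2) / ((2 * n + 1 / 2) ^ 2 + t ^ 2) ^ 2| ≤ C * t ^ (-(3 / 2) : ℝ)) :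
    ∃ C : ℝ, 0 < C ∧ ∀ X t : ℝ, 1 / 2 ≤ X → 1 ≤ t →
    |X * MM X t - Real.log (t / (2 * Real.pi))| ≤ C * (t ^ (-(3 / 2) : ℝ) + Real.exp (X / 2) / t ^ 2) := by
  obtain ⟨C1, hC1, h1⟩ := Gd_asy
  obtain ⟨C2, hC2, h2⟩ := sq_asy
  have hK := K_nonneg57
  refine ⟨64 * K57 + 8 * C2 + C1 + 64, by positivity, ?_⟩
  intro X t hX ht
  have ht0 : 0 < t := by linarith
  have h3 := main57 Gd_summable hX ht (h2 t ht) hC2.le
  have h4 := h1 t ht
  have hp : 0 < t ^ (-(3 / 2) : ℝ) := by positivity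
  have hq : 0 < Real.exp (X / 2) / t ^ 2 := by positivity
  calc |X * MM X t - Real.log (t / (2 * Real.pi))| ≤ |X * MM X t - Gd t| + |Gd t - Real.log (t / (2 * Real.pi))| := abs_sub_le _ _ _
    _ ≤ _ := by nlinarith [mul_pos hC1 hp, mul_pos hC2 hp, mul_nonneg hK hp.le, mul_pos hC1 hq, mul_pos hC2 hq, mul_nonneg hK hq.le]

/-- SO3 -/
theorem MM_asy : ∃ C : ℝ, 0 < C ∧ ∀ X t : ℝ, 1 / 2 ≤ X → 1 ≤ t →
    |X * MM X t - Real.log (t / (2 * Real.pi))| ≤ C * (t ^ (-(3 / 2) : ℝ) + Real.exp (X / 2) / t ^ 2) :=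
  MM_asy_of Gd_summable Gd_asy sq_asy

end Pool.Agent.Helper49.SO
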